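import Pool.Agent.TW4.All

/-!
MP_59b5d9_co (minor-minimal graphs of treewidth more than 4): 137 pairwise non-isomorphic
members of the set O_4, given explicitly.
-/

namespace Pool.Agent.Results.MP_59b5d9_co.Catalogue137

open Pool.Agent.TW4

theorem iso_card {n m c d : ℕ} (h : n ≠ m) : IsEmpty (gr n c ≃g gr m d) := by
  refine ⟨fun e => h ?_⟩
  have := Fintype.card_congr e.toEquiv
  simpa using this

theorem pw {n : ℕ} {cs : List ℕ} (h : Good n cs) :
    (cs.map fun c => (n, c)).Pairwise fun p q => IsEmpty (gr p.1 p.2 ≃g gr q.1 q.2) := by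
  rw [List.pairwise_map]
  exact h.2

theorem ob {n : ℕ} {cs : List ℕ} (h : Good n cs) :
    ∀ p ∈ cs.map (fun c => (n, c)), p.1 = n ∧ IsObstruction 4 (gr p.1 p.2) := by
  intro p hp
  obtain ⟨c, hc, rfl⟩ := List.mem_map.1 hp
  exact ⟨rfl, h.1 c hc⟩

theorem pairs : (∀ p ∈ catalogue, p.1 ≤ 14 ∧ IsObstruction 4 (gr p.1 p.2)) ∧
    catalogue.Pairwise fun p q => IsEmpty (gr p.1 p.2 ≃g gr q.1 q.2) := by
  have step : ∀ (A : List (ℕ × ℕ)) (k n : ℕ) (cs : List ℕ), k < n → Good n cs →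
      ((∀ p ∈ A, p.1 ≤ k ∧ IsObstruction 4 (gr p.1 p.2)) ∧
        A.Pairwise fun p q => IsEmpty (gr p.1 p.2 ≃g gr q.1 q.2)) →
      ((∀ p ∈ A ++ cs.map (fun c => (n, c)), p.1 ≤ n ∧ IsObstruction 4 (gr p.1 p.2)) ∧
        (A ++ cs.map (fun c => (n, c))).Pairwise
          fun p q => IsEmpty (gr p.1 p.2 ≃g gr q.1 q.2)) := by
    rintro A k n cs hkn hcs ⟨h1, h2⟩
    refine ⟨?_, ?_⟩
    · intro p hp
      rcases List.mem_append.1 hp with hp | hp
      · exact ⟨(h1 p hp).1.trans hkn.le, (h1 p hp).2⟩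
      · exact ⟨(ob hcs p hp).1.le, (ob hcs p hp).2⟩
    · rw [List.pairwise_append]
      refine ⟨h2, pw hcs, ?_⟩
      intro p hp q hq
      refine iso_card ?_
      have e1 := (h1 p hp).1
      have e2 := (ob hcs q hq).1
      omega
  have h0 : ((∀ p ∈ codes6.map (fun c => (6, c)), p.1 ≤ 6 ∧ IsObstruction 4 (gr p.1 p.2)) ∧
        (codes6.map fun c => (6, c)).Pairwise
          fun p q => IsEmpty (gr p.1 p.2 ≃g gr q.1 q.2)) :=
    ⟨fun p hp => ⟨(ob good6 p hp).1.le, (ob good6 p hp).2⟩, pw good6⟩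
  unfold catalogue
  exact step _ 13 14 _ (by norm_num) good14 (step _ 12 13 _ (by norm_num) good13
    (step _ 11 12 _ (by norm_num) good12 (step _ 10 11 _ (by norm_num) good11
    (step _ 9 10 _ (by norm_num) good10 (step _ 8 9 _ (by norm_num) good9
    (step _ 7 8 _ (by norm_num) good8 (step _ 6 7 _ (by norm_num) good7 h0)))))))

theorem len : catalogue.length = 137 := by decide +kernel

/-- The catalogue consists of 137 pairwise non-isomorphic members of O_4, namely 1, 1, 3, 14, 30,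
41, 25, 16, 6 graphs of the orders 6, ..., 14. -/
theorem result :
    catalogue.length = 137 ∧
    (∀ p ∈ catalogue, IsObstruction 4 (gr p.1 p.2)) ∧
    catalogue.Pairwise (fun p q => IsEmpty (gr p.1 p.2 ≃g gr q.1 q.2)) ∧
    (List.range 15).map (fun n => (catalogue.filter fun p => p.1 == n).length) =
      [0, 0, 0, 0, 0, 0, 1, 1, 3, 14, 30, 41, 25, 16, 6] := by
  obtain ⟨h1, h2⟩ := pairs
  exact ⟨len, fun p hp => (h1 p hp).2, h2, by decide +kernel⟩

end Pool.Agent.Results.MP_59b5d9_co.Catalogue137
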