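import Pool.Agent.TW4.So.Levels10

/-!
MP_59b5d9_co (minor-minimal graphs of treewidth more than 4): the members of O_4 of order at
most 10 are exactly 49 graphs, given explicitly.
-/

namespace Pool.Agent.Results.MP_59b5d9_co.OrderAtMost10

open Pool.Agent.TW4

/-- 49 graphs, each given by its order and its code -/
def members : List (ℕ × ℕ) := [
  (6, 32767), (7, 2063199), (8, 248997651), (8, 261733203), (8, 261969139), (9, 57001470030),
  (9, 66749273336), (9, 66782053801), (9, 48474515535), (9, 57002240591), (9, 65725089422),
  (9, 66799159390), (9, 66815662675), (9, 57543549203), (9, 63541137587), (9, 63545354635),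
  (9, 65596590867), (9, 59178929427), (9, 59179191347), (10, 23683642558547),
  (10, 24370098090194), (10, 24778859219083), (10, 25342664328973), (10, 31375882760835),
  (10, 33312373235854), (10, 34130101339923), (10, 15999965379466), (10, 16547474086514),
  (10, 25341473630862), (10, 29160791214174), (10, 29164086904926), (10, 33163667179177),
  (10, 33167928592041), (10, 33283967616787), (10, 34130096690424), (10, 34130100791721),
  (10, 34138623617449), (10, 14901401843787), (10, 23962395484275), (10, 27378430003595),
  (10, 30016084914571), (10, 30265796331614), (10, 33076726278931), (10, 33583591213171),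
  (10, 33592064485771), (10, 33592114030987), (10, 34131183028339), (10, 34139705854046),
  (10, 34687301593679)]

theorem members_eq : members = So.small := by decide +kernel

theorem length_members : members.length = 49 := by decide +kernel

/-- For n at most 10, the members of O_4 of order n are, up to isomorphism, exactly the graphs of
order n in the list, and no two graphs of the list are isomorphic. -/
theorem result :
    (∀ n ≤ 10, ∀ G : SimpleGraph (Fin n), IsObstruction 4 G ↔
      ∃ p ∈ members, Nonempty (G ≃g gr p.1 p.2)) ∧
    members.Pairwise (fun p q => IsEmpty (gr p.1 p.2 ≃g gr q.1 q.2)) := by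
  rw [members_eq]
  refine ⟨?_, So.pairs.2⟩
  intro n hn G
  constructor
  · intro hG
    exact So.small_orders hn G hG
  · rintro ⟨p, hp, ⟨e⟩⟩
    have ho : IsObstruction 4 (gr p.1 p.2) := (So.pairs.1 p hp).2
    have hc : p.1 = n := by
      have := Fintype.card_congr e.toEquiv
      simp only [Fintype.card_fin] at this
      exact this.symm
    obtain ⟨a, c⟩ := p
    simp only at hc ho e
    subst hc
    exact So.obs_iso e.symm ho

end Pool.Agent.Results.MP_59b5d9_co.OrderAtMost10
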