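import Pool.Agent.TWB.Fin
import Pool.Agent.TWB.Obst

/-!
MP_59b5d9_co (minor-minimal graphs of treewidth more than k): an explicit bound, exponential in
a polynomial of k, for the order of all members of O_k.
-/

namespace Pool.Agent.Results.MP_59b5d9_co.OrderBound

open Pool.Agent.TW4

/-- Every member of O_k (every graph that is not a partial k-tree while all its proper minors are)
has at most (64 (k + 1)) ^ (2 (k + 2) ^ 3) vertices. -/
theorem result (k n : ℕ) (G : SimpleGraph (Fin n)) (h : IsObstruction k G) :
    n ≤ (64 * (k + 1)) ^ (2 * (k + 2) ^ 3) := by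
  have := Pool.Agent.TWB.obs_card (Pool.Agent.TWB.obs_of_isObstruction h)
  simpa using this

end Pool.Agent.Results.MP_59b5d9_co.OrderBound
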